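import Pool.Agent.Lib.MP_5349a4_pr.M.Iface3
import Pool.Agent.Lib.MP_5349a4_pr.M.Base

/-!
# GSB
-/

set_option autoImplicit false
open MeasureTheory Set
open scoped ENNReal NNReal

namespace Pool.Agent.Lib.MP_5349a4_pr.H12

theorem vol_ball {d : ℕ} (s : ℝ) (hs : 0 ≤ s) :
    volume (bal (0 : Eu d) s) = ENNReal.ofReal (s ^ d) * volume (bal (0 : Eu d) 1) := by
  unfold bal
  rw [Measure.addHaar_closedBall' volume (0 : Eu d) hs]
  simp

theorem gsb : GsbStatement := by
  intro d lam κ A hC
  have hdk : κ ≤ d := by
    have h1 := hC.hd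
    have h2 := hC.hκ
    nlinarith
  set m := d - κ with hm
  have hmd : m + κ = d := by omega
  set vd : ℝ := (volume (bal (0 : Eu d) 1)).toReal with hvd
  have hvd0 : 0 ≤ vd := ENNReal.toReal_nonneg
  have hvtop : volume (bal (0 : Eu d) 1) ≠ ∞ := (measure_closedBall_lt_top).ne
  have hA0 : (0 : ℝ) < A := by
    have := hC.hA
    have h1 : (1 : ℝ) ≤ A := by exact_mod_cast this
    linarith
  set K : ℝ := A + lam * vd * A * 2 ^ m with hK
  have hKA : (A : ℝ) ≤ K := by
    rw [hK]; have : 0 ≤ (lam : ℝ) * vd * A * 2 ^ m := by positivity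
    linarith
  have hK0 : 0 < K := by linarith
  have hK2 : (lam : ℝ) * vd * A * 2 ^ m ≤ K := by rw [hK]; linarith
  have h2m : (1 : ℝ) ≤ 2 ^ m := one_le_pow₀ (by norm_num)
  refine ⟨K * 2 ^ m, by positivity, ?_⟩
  intro s hs
  have hs0 : 0 < s := by linarith
  classical
  refine ⟨fun z => ENNReal.ofReal (if ‖z‖ < 2 * s then K * s ^ κ else K * s ^ d / ‖z‖ ^ m),
    ?_, ?_, ?_⟩
  · apply ENNReal.measurable_ofReal.comp
    apply Measurable.ite
    · exact measurableSet_lt measurable_norm measurable_const
    · exact measurable_const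
    · exact measurable_const.div (measurable_norm.pow_const m)
  · intro V z hV
    beta_reduce
    by_cases hz : ‖z‖ < 2 * s
    · rw [if_pos hz]
      refine (hC.a1 V z 0 s hV hs).trans ?_
      have h1 : (A : ℝ≥0∞) = ENNReal.ofReal (A : ℝ) := by simp
      rw [h1, ← ENNReal.ofReal_mul (by positivity)]
      exact ENNReal.ofReal_le_ofReal (mul_le_mul_of_nonneg_right hKA (by positivity))
    · rw [if_neg hz]
      have hz2 : 2 * s ≤ ‖z‖ := not_lt.1 hz
      have hzpos : 0 < ‖z‖ := by linarith
      unfold wt
      have h0 : ind (z ∈ bal (0 : Eu d) s) = 0 := by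
        apply ind_not
        unfold bal
        rw [Metric.mem_closedBall, dist_zero_right]
        intro h; linarith
      beta_reduce
      rw [h0, zero_add]
      set c : ℝ≥0∞ := ENNReal.ofReal (A * 2 ^ m / ‖z‖ ^ m) with hc
      have hτ : ∀ y, tau lam V z y * ind (y ∈ bal (0 : Eu d) s) ≤ ind (y ∈ bal (0 : Eu d) s) * c := by
        intro y
        by_cases hy : y ∈ bal (0 : Eu d) s
        · rw [ind_of hy, mul_one, one_mul]
          have hy' : ‖y‖ ≤ s := by
            unfold bal at hy
            rwa [Metric.mem_closedBall, dist_zero_right] at hy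
          have hd1 : ‖z‖ / 2 ≤ dist z y := by
            have := norm_sub_norm_le z y
            rw [dist_eq_norm]
            linarith
          have hd2 : 1 ≤ dist z y := by linarith
          have h2 := hC.a2 V z y hV hd2
          have hpos : 0 < (‖z‖ / 2) ^ m := by positivity
          have h3 : tau lam V z y * ENNReal.ofReal ((‖z‖ / 2) ^ m) ≤ A := by
            refine le_trans ?_ h2
            apply mul_le_mul_right
            exact ENNReal.ofReal_le_ofReal (pow_le_pow_left₀ (by positivity) hd1 _)
          have h4 : tau lam V z y ≤ A / ENNReal.ofReal ((‖z‖ / 2) ^ m) := by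
            rw [ENNReal.le_div_iff_mul_le (Or.inl (by simpa using hpos)) (Or.inl ENNReal.ofReal_ne_top)]
            exact h3
          refine h4.trans (le_of_eq ?_)
          have h5 : (A : ℝ≥0∞) = ENNReal.ofReal (A : ℝ) := by simp
          rw [h5, ← ENNReal.ofReal_div_of_pos hpos, hc]
          congr 1
          rw [div_pow]
          field_simp
        · rw [ind_not hy, mul_zero, zero_mul]
      calc (lam : ℝ≥0∞) * ∫⁻ y in V, tau lam V z y * ind (y ∈ bal (0 : Eu d) s)
          ≤ lam * ∫⁻ y in V, ind (y ∈ bal (0 : Eu d) s) * c := by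
            apply mul_le_mul_right
            exact lintegral_mono hτ
        _ ≤ lam * ∫⁻ y, ind (y ∈ bal (0 : Eu d) s) * c := by
            apply mul_le_mul_right
            exact setLIntegral_le_lintegral _ _
        _ = lam * (c * volume (bal (0 : Eu d) s)) := by
            rw [lintegral_mul_ind (dom_bal (0 : Eu d) s).1, lintegral_const,
              Measure.restrict_apply_univ]
        _ = ENNReal.ofReal (lam * (A * 2 ^ m / ‖z‖ ^ m * (s ^ d * vd))) := by
            rw [vol_ball s hs0.le, ← ENNReal.ofReal_toReal hvtop, ← hvd, hc,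
              ← ENNReal.ofReal_mul (by positivity), ← ENNReal.ofReal_mul (by positivity)]
            have h5 : (lam : ℝ≥0∞) = ENNReal.ofReal (lam : ℝ) := by simp
            rw [h5, ← ENNReal.ofReal_mul (by positivity)]
        _ ≤ ENNReal.ofReal (K * s ^ d / ‖z‖ ^ m) := by
            apply ENNReal.ofReal_le_ofReal
            have h6 : (lam : ℝ) * (A * 2 ^ m / ‖z‖ ^ m * (s ^ d * vd)) =
                (lam * vd * A * 2 ^ m) * s ^ d / ‖z‖ ^ m := by
              field_simp
            rw [h6]
            gcongr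
  · intro z u hzu
    beta_reduce
    unfold gmaj
    apply ENNReal.ofReal_le_ofReal
    rw [← hm]
    by_cases hz : ‖z‖ < 2 * s
    · have hu : ‖u‖ ≤ 4 * s := by
        have h1 : ‖u‖ ≤ ‖z‖ + dist z u := by
          rw [dist_eq_norm, norm_sub_rev]
          have := norm_add_le z (u - z)
          rw [add_sub_cancel] at this
          exact this
        linarith
      rw [if_pos hz, if_pos hu]
      calc K * s ^ κ ≤ K * 2 ^ m * s ^ κ := by
            have : 0 ≤ K * s ^ κ := by positivity
            nlinarith
        _ = K * 2 ^ m * s ^ κ := rfl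
    · have hz2 : 2 * s ≤ ‖z‖ := not_lt.1 hz
      have hzpos : 0 < ‖z‖ := by linarith
      rw [if_neg hz]
      by_cases hu : ‖u‖ ≤ 4 * s
      · rw [if_pos hu]
        rw [div_le_iff₀ (by positivity)]
        have h1 : s ^ m ≤ ‖z‖ ^ m := pow_le_pow_left₀ hs0.le (by linarith) m
        have h2 : s ^ d = s ^ m * s ^ κ := by rw [← pow_add, hmd]
        rw [h2]
        calc K * (s ^ m * s ^ κ) ≤ K * (‖z‖ ^ m * s ^ κ) := by gcongr
          _ = 1 * (K * s ^ κ * ‖z‖ ^ m) := by ring
          _ ≤ 2 ^ m * (K * s ^ κ * ‖z‖ ^ m) := by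
              apply mul_le_mul_of_nonneg_right h2m (by positivity)
          _ = _ := by ring
      · rw [if_neg hu]
        have hu' : 4 * s < ‖u‖ := not_le.1 hu
        have hupos : 0 < ‖u‖ := by linarith
        have h1 : ‖u‖ ≤ 2 * ‖z‖ := by
          have h2 : ‖u‖ ≤ ‖z‖ + dist z u := by
            rw [dist_eq_norm, norm_sub_rev]
            have := norm_add_le z (u - z)
            rw [add_sub_cancel] at this
            exact this
          linarith
        rw [div_le_div_iff₀ (by positivity) (by positivity)]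
        have h3 : ‖u‖ ^ m ≤ 2 ^ m * ‖z‖ ^ m := by
          rw [← mul_pow]
          exact pow_le_pow_left₀ hupos.le h1 m
        calc K * s ^ d * ‖u‖ ^ m ≤ K * s ^ d * (2 ^ m * ‖z‖ ^ m) := by gcongr
          _ = _ := by ring

end Pool.Agent.Lib.MP_5349a4_pr.H12
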