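import Pool.Agent.Lib.MP_5349a4_pr.M.Iface3
import Pool.Agent.Lib.MP_5349a4_pr.M.Base

/-!
# REC
-/

set_option autoImplicit false
open MeasureTheory Set
open scoped ENNReal NNReal

namespace Pool.Agent.Lib.MP_5349a4_pr.H12

theorem pow_sub_one_le (e : ℝ) (he : 0 ≤ e) (he1 : e ≤ 1) (n : ℕ) :
    (1 + e) ^ n - 1 ≤ (2 ^ n - 1) * e := by
  induction n with
  | zero => simp
  | succ n ih =>
    have h1 : (1 : ℝ) ≤ 2 ^ n := one_le_pow₀ (by norm_num)
    have h2 : (1 + e) ^ (n + 1) - 1 = (1 + e) * ((1 + e) ^ n - 1) + e := by ring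
    have h3 : (1 + e) * ((1 + e) ^ n - 1) ≤ (1 + e) * ((2 ^ n - 1) * e) :=
      mul_le_mul_of_nonneg_left ih (by linarith)
    have h4 : (1 + e) * ((2 ^ n - 1) * e) ≤ 2 * ((2 ^ n - 1) * e) :=
      mul_le_mul_of_nonneg_right (by linarith) (mul_nonneg (by linarith) he)
    rw [h2, pow_succ]
    nlinarith

theorem measurable_gmaj (d κ : ℕ) (C s : ℝ) : Measurable (gmaj d κ C s) := by
  unfold gmaj
  apply ENNReal.measurable_ofReal.comp
  apply Measurable.ite
  · exact measurableSet_le measurable_norm measurable_const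
  · exact measurable_const
  · exact measurable_const.div (measurable_norm.pow_const _)

theorem gmaj_eq (d κ : ℕ) (C s : ℝ) (hC : 0 ≤ C) (u : Eu d) :
    gmaj d κ C s u = ENNReal.ofReal C * gmaj d κ 1 s u := by
  unfold gmaj
  rw [← ENNReal.ofReal_mul hC]
  congr 1
  split_ifs
  · ring
  · ring

theorem mun_mul (d : ℕ) (lam : ℝ≥0) (th : ℕ → ℝ) (L : ℝ) (n : ℕ) (f : Eu d → ℝ≥0∞) (c : ℝ≥0∞)
    (hc : c ≠ ∞) : mun d lam th L n (fun u => c * f u) = c * mun d lam th L n f := by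
  unfold mun
  rw [← lintegral_const_mul' _ _ hc]
  congr 1
  funext ω
  unfold occ nnew
  rw [Finset.mul_sum]
  apply Finset.sum_congr rfl
  intro i _
  rw [ENNReal.tsum_mul_left]
  ring

theorem sum_dyadic (T : ℕ → ℝ≥0∞) (m0 k : ℕ) :
    ∑ j ∈ Finset.range (2 ^ k * m0), T j = ∑ j ∈ Finset.range m0, T j +
      ∑ l ∈ Finset.range k, ∑ j ∈ Finset.Ico (2 ^ l * m0) (2 ^ (l + 1) * m0), T j := by
  induction k with
  | zero => simp
  | succ k ih =>
    rw [Finset.sum_range_succ, ← add_assoc, ← ih]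
    rw [Finset.sum_range_add_sum_Ico]
    exact Nat.mul_le_mul_right _ (Nat.pow_le_pow_right (by norm_num) (Nat.le_succ k))

theorem thr_eq (κ m0 l j : ℕ) (hm : 1 ≤ m0) (h1 : 2 ^ l * m0 ≤ j) (h2 : j < 2 ^ (l + 1) * m0) :
    thr κ m0 j = 1 + ((2 ^ l * m0 : ℕ) : ℝ) ^ (-(1 / (6 * (κ : ℝ)))) := by
  unfold thr
  have h3 : m0 ≤ 2 ^ l * m0 := Nat.le_mul_of_pos_left _ (by positivity)
  rw [if_neg (by omega)]
  have h4 : Nat.log 2 (j / m0) = l := by
    apply Nat.log_eq_of_pow_le_of_lt_pow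
    · exact (Nat.le_div_iff_mul_le (by omega)).2 h1
    · exact (Nat.div_lt_iff_lt_mul (by omega)).2 h2
  rw [h4]

theorem recT (hAt : AttStatement) (hSh : ShelStatement) (hGs : GsbStatement)
    (hPr : ProbStatement) : RecStatement := by
  intro d lam κ A hC
  have hd : 1 ≤ d := by
    have h1 := hC.hd
    have h2 := hC.hκ
    nlinarith
  obtain ⟨C0, hC0, hG⟩ := hGs d lam κ A hC
  set vd : ℝ := (volume (bal (0 : Eu d) 1)).toReal with hvd
  have hvd0 : 0 ≤ vd := ENNReal.toReal_nonneg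
  have hvtop : volume (bal (0 : Eu d) 1) ≠ ∞ := (measure_closedBall_lt_top).ne
  set C : ℝ := C0 + lam * 2 ^ d * vd * C0 with hCdef
  have hx : 0 ≤ (lam : ℝ) * 2 ^ d * vd * C0 := by positivity
  have hC00 : C0 ≤ C := by rw [hCdef]; linarith
  refine ⟨C, by linarith, ?_⟩
  intro m0 k L s hm0 hs
  obtain ⟨F, hFm, hF1, hF2⟩ := hG s hs
  set th := thr κ m0 with hth
  set n := 2 ^ k * m0 with hn
  set T : ℕ → ℝ≥0∞ := fun j => ∫⁻ ω, ind (att (pt ω) 0 j ∧ good th (pt ω) 0 j) *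
    nnew (pt ω) 0 j F ∂PL (leb lam (bal (0 : Eu d) L)) with hT
  have hfm : Measurable (fun b : Eu d => ind (b ∈ bal (0 : Eu d) s)) :=
    measurable_ind (dom_bal (0 : Eu d) s).1
  have h1 := hAt d lam th L n (fun b => ind (b ∈ bal 0 s)) F hd hfm hFm
    (fun V z hV => hF1 V z hV)
  have hnpos : 1 ≤ n := by
    rw [hn]; exact Nat.mul_pos (by positivity) hm0
  have h2 : ∑ j ∈ Finset.range n, T j ≤ T 0 + ∑ j ∈ Finset.range n, T (j + 1) := by
    obtain ⟨n', hn'⟩ : ∃ n', n = n' + 1 := ⟨n - 1, by omega⟩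
    rw [hn', Finset.sum_range_succ', add_comm, Finset.sum_range_succ]
    gcongr
    exact le_self_add
  have hT0 : T 0 ≤ ENNReal.ofReal (C * s ^ κ) := by
    have hfin : IsFiniteMeasure (leb lam (bal (0 : Eu d) L)) := finite_leb lam (dom_bal _ _).2
    have hprob : IsProbabilityMeasure (PL (leb lam (bal (0 : Eu d) L))) := (hPr _ _).1
    have hle : T 0 ≤ ∫⁻ _ω, F 0 ∂PL (leb lam (bal (0 : Eu d) L)) := by
      rw [hT]
      apply lintegral_mono
      intro ω
      have h3 : nnew (pt ω) (0 : Eu d) 0 F = F 0 := by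
        unfold nnew
        change ∑' p : ({(0 : Eu d)} : Set (Eu d)), F p = F 0
        exact tsum_singleton (0 : Eu d) F
      beta_reduce
      rw [h3]
      calc _ ≤ 1 * F 0 := by gcongr; exact ind_le_one _
        _ = F 0 := one_mul _
    rw [lintegral_const, measure_univ, mul_one] at hle
    refine hle.trans ((hF2 0 0 (by simp)).trans ?_)
    unfold gmaj
    rw [if_pos (by rw [norm_zero]; linarith)]
    apply ENNReal.ofReal_le_ofReal
    gcongr
  have hs1 : ∑ j ∈ Finset.range m0, T (j + 1) = 0 := by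
    have h3 := hSh d lam th L 0 0 m0 F (gmaj d κ C0 s) hd hFm (measurable_gmaj _ _ _ _) hF2
      le_rfl zero_le_one (fun j _ hj => by
        rw [hth]; unfold thr; rw [if_pos hj]; simp)
    rw [add_zero, one_pow, sub_self, ENNReal.ofReal_zero, mul_zero, zero_mul, zero_mul,
      Nat.Ico_zero_eq_range] at h3
    exact le_antisymm h3 zero_le
  have hs2 : ∀ l ∈ Finset.range k,
      ∑ j ∈ Finset.Ico (2 ^ l * m0) (2 ^ (l + 1) * m0), T (j + 1) ≤
        ENNReal.ofReal (C * ((2 ^ l * m0 : ℕ) : ℝ) ^ (-(1 / (6 * (κ : ℝ))))) *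
          mun d lam th L (2 ^ (l + 1) * m0) (gmaj d κ 1 s) := by
    intro l _
    set e : ℝ := ((2 ^ l * m0 : ℕ) : ℝ) ^ (-(1 / (6 * (κ : ℝ)))) with he
    have hbase : (1 : ℝ) ≤ ((2 ^ l * m0 : ℕ) : ℝ) := by
      have : 1 ≤ 2 ^ l * m0 := Nat.mul_pos (by positivity) hm0
      exact_mod_cast this
    have he0 : 0 ≤ e := Real.rpow_nonneg (by linarith) _
    have he1 : e ≤ 1 := Real.rpow_le_one_of_one_le_of_nonpos hbase (by
      have : 0 ≤ 1 / (6 * (κ : ℝ)) := by positivity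
      linarith)
    have h3 := hSh d lam th L e (2 ^ l * m0) (2 ^ (l + 1) * m0) F (gmaj d κ C0 s) hd hFm
      (measurable_gmaj _ _ _ _) hF2 he0 he1 (fun j hj1 hj2 => by
        rw [hth, thr_eq κ m0 l j hm0 hj1 hj2])
    refine h3.trans ?_
    have h4 : gmaj d κ C0 s = fun u => ENNReal.ofReal C0 * gmaj d κ 1 s u := by
      funext u; exact gmaj_eq d κ C0 s hC0.le u
    rw [h4, mun_mul _ _ _ _ _ _ _ ENNReal.ofReal_ne_top, ← mul_assoc]
    apply mul_le_mul_left
    have h5 : (lam : ℝ≥0∞) = ENNReal.ofReal (lam : ℝ) := by simp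
    have h6 : 0 ≤ (1 + e) ^ d - 1 := by
      have : (1 : ℝ) ≤ (1 + e) ^ d := one_le_pow₀ (by linarith)
      linarith
    rw [h5, ← ENNReal.ofReal_toReal hvtop, ← hvd, ← ENNReal.ofReal_mul (by positivity),
      ← ENNReal.ofReal_mul (by positivity), ← ENNReal.ofReal_mul (by positivity)]
    apply ENNReal.ofReal_le_ofReal
    have h7 : (1 + e) ^ d - 1 ≤ 2 ^ d * e := by
      have := pow_sub_one_le e he0 he1 d
      nlinarith
    calc (lam : ℝ) * ((1 + e) ^ d - 1) * vd * C0 ≤ lam * (2 ^ d * e) * vd * C0 := by gcongr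
      _ = (lam * 2 ^ d * vd * C0) * e := by ring
      _ ≤ C * e := by
        apply mul_le_mul_of_nonneg_right _ he0
        rw [hCdef]; linarith
  calc mun d lam th L n (fun b => ind (b ∈ bal 0 s)) ≤ ∑ j ∈ Finset.range n, T j := h1
    _ ≤ T 0 + ∑ j ∈ Finset.range n, T (j + 1) := h2
    _ = T 0 + ∑ l ∈ Finset.range k, ∑ j ∈ Finset.Ico (2 ^ l * m0) (2 ^ (l + 1) * m0), T (j + 1) := by
        rw [hn, sum_dyadic (fun j => T (j + 1)), hs1, zero_add]
    _ ≤ _ := add_le_add hT0 (Finset.sum_le_sum hs2)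

end Pool.Agent.Lib.MP_5349a4_pr.H12
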