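import Pool.Agent.Lib.MP_5349a4_pr.M.Iface3
import Pool.Agent.Lib.MP_5349a4_pr.M.Base

/-!
# TYP and SMP3
-/

set_option autoImplicit false
open MeasureTheory Set
open scoped ENNReal NNReal

namespace Pool.Agent.Lib.MP_5349a4_pr.H12

section Gen
variable {E E' : Type} [MeasurableSpace E] [MeasurableSpace E']

theorem cm_union_image (hops : MOpsStatement) {T : Type} [MeasurableSpace T] {f : Set E' → ℝ≥0∞}
    (hf : CM f) {g : T → Cfg E'} (hg : Measurable g) {ψ : E → E'} (hψ : Measurable ψ) :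
    Measurable fun q : T × Cfg E => f (pt (g q.1) ∪ ψ '' pt q.2) := by
  obtain ⟨a, ha, ha'⟩ := hops.1 E'
  obtain ⟨m, hm, hm'⟩ := hops.2.2 E E' ψ hψ
  have h1 : (fun q : T × Cfg E => f (pt (g q.1) ∪ ψ '' pt q.2)) =
      (fun ω : Cfg E' => f (pt ω)) ∘ fun q : T × Cfg E => a (g q.1, m q.2) := by
    funext q
    simp only [Function.comp_apply, ha', hm']
  rw [h1]
  exact hf.comp (ha.comp ((hg.comp measurable_fst).prodMk (hm.comp measurable_snd)))

theorem cm_int (hprob : ProbStatement) (hops : MOpsStatement) {f : Set E' → ℝ≥0∞} (hf : CM f)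
    {ψ : E → E'} (hψ : Measurable ψ) (σ : Measure E) [IsFiniteMeasure σ] :
    CM fun P => ∫⁻ c, f (P ∪ ψ '' pt c) ∂PL σ := by
  have : IsProbabilityMeasure (PL σ) := (hprob E σ).1
  exact (cm_union_image hops hf measurable_id hψ).lintegral_prod_right'

theorem typA (hsup : SuperStatement) (himg : ImgStatement) (hops : MOpsStatement)
    {f : Set E' → ℝ≥0∞} (hf : CM f) {ψ : E → E'} (hψ : Measurable ψ) (μ : Measure E')
    (σ : Measure E) [IsFiniteMeasure μ] [IsFiniteMeasure σ] :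
    ∫⁻ ω, f (pt ω) ∂PL (μ + σ.map ψ) = ∫⁻ ω, ∫⁻ c, f (pt ω ∪ ψ '' pt c) ∂PL σ ∂PL μ := by
  rw [hsup E' μ (σ.map ψ) f hf]
  congr 1
  funext ω
  refine himg E E' σ ψ (fun P => f (pt ω ∪ P)) hψ ?_
  have hc : Measurable fun _ : Unit => ω := measurable_const
  have := (cm_union_image hops hf hc (measurable_id (α := E')))
  have h2 : Measurable fun ω' : Cfg E' => ((), ω') := measurable_const.prodMk measurable_id
  have h3 := this.comp h2
  unfold CM
  convert h3 using 1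
  funext ω'
  simp

theorem typ2 (hsup : SuperStatement) (himg : ImgStatement) (hops : MOpsStatement)
    (hprob : ProbStatement) {f : Set E' → ℝ≥0∞} (hf : CM f) {φ ψ : E → E'} (hφ : Measurable φ)
    (hψ : Measurable ψ) (ρ σ : Measure E) [IsFiniteMeasure ρ] [IsFiniteMeasure σ] :
    ∫⁻ ω, f (pt ω) ∂PL (ρ.map φ + σ.map ψ) =
      ∫⁻ a, ∫⁻ b, f (φ '' pt a ∪ ψ '' pt b) ∂PL σ ∂PL ρ := by
  rw [typA hsup himg hops hf hψ (ρ.map φ) σ]
  exact himg E E' ρ φ (fun P => ∫⁻ c, f (P ∪ ψ '' pt c) ∂PL σ) hφ (cm_int hprob hops hf hψ σ)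

theorem typ3 (hsup : SuperStatement) (himg : ImgStatement) (hops : MOpsStatement)
    (hprob : ProbStatement) {f : Set E' → ℝ≥0∞} (hf : CM f) {φ ψ χ : E → E'} (hφ : Measurable φ)
    (hψ : Measurable ψ) (hχ : Measurable χ) (ρ σ τ : Measure E) [IsFiniteMeasure ρ]
    [IsFiniteMeasure σ] [IsFiniteMeasure τ] :
    ∫⁻ ω, f (pt ω) ∂PL (ρ.map φ + σ.map ψ + τ.map χ) =
      ∫⁻ a, ∫⁻ b, ∫⁻ c, f (φ '' pt a ∪ ψ '' pt b ∪ χ '' pt c) ∂PL τ ∂PL σ ∂PL ρ := by
  rw [typA hsup himg hops hf hχ (ρ.map φ + σ.map ψ) τ]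
  exact typ2 hsup himg hops hprob (cm_int hprob hops hf hχ τ) hφ hψ ρ σ

end Gen

theorem typ (hsup : SuperStatement) (himg : ImgStatement) (hops : MOpsStatement)
    (hprob : ProbStatement) : TypStatement := by
  intro d ρn ρg _ _ f hf
  exact typ2 hsup himg hops hprob hf (measurable_id.prodMk measurable_const)
    (measurable_id.prodMk measurable_const) ρn ρg

section Smp3
variable {d : ℕ}

/-- the part of type `i` -/
def slc (i : Fin 3) (Q : Set (Eu d × Fin 3)) : Set (Eu d) := {e | (e, i) ∈ Q}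

/-- the stopping set of the typed process -/
def WW (W : Set (Eu d) → Set (Eu d)) (P : Set (Eu d × Fin 3)) : Set (Eu d × Fin 3) :=
  {q | q.1 ∈ W (Prod.fst '' P)}

theorem stopWW (hops : MOpsStatement) {W : Set (Eu d) → Set (Eu d)} (hW : Stop W) :
    Stop (WW W) := by
  obtain ⟨m, hm, hm'⟩ := hops.2.2 (Eu d × Fin 3) (Eu d) Prod.fst measurable_fst
  constructor
  · have h1 : {q : (Eu d × Fin 3) × Cfg (Eu d × Fin 3) | q.1 ∈ WW W (pt q.2)} =
        (fun q : (Eu d × Fin 3) × Cfg (Eu d × Fin 3) => (q.1.1, m q.2)) ⁻¹'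
          {q : Eu d × Cfg (Eu d) | q.1 ∈ W (pt q.2)} := by
      ext q
      simp only [mem_ofPred_eq, mem_preimage, hm', WW]
    rw [h1]
    exact hW.meas.preimage ((measurable_fst.comp measurable_fst).prodMk
      (hm.comp measurable_snd))
  · intro P Q hP hQ h
    have h2 : W (Prod.fst '' Q) = W (Prod.fst '' P) := by
      apply hW.stop _ _ (hP.image _) (hQ.image _)
      ext x
      constructor
      · rintro ⟨⟨⟨y, i⟩, hy, rfl⟩, hx⟩
        have h3 : (y, i) ∈ Q ∩ WW W P := ⟨hy, hx⟩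
        rw [h] at h3
        exact ⟨⟨(y, i), h3.1, rfl⟩, hx⟩
      · rintro ⟨⟨⟨y, i⟩, hy, rfl⟩, hx⟩
        have h3 : (y, i) ∈ P ∩ WW W P := ⟨hy, hx⟩
        rw [← h] at h3
        exact ⟨⟨(y, i), h3.1, rfl⟩, hx⟩
    unfold WW
    rw [h2]

/-- typed union -/
def lift3 (a b c : Set (Eu d)) : Set (Eu d × Fin 3) :=
  (fun x => (x, (0 : Fin 3))) '' a ∪ (fun x => (x, (1 : Fin 3))) '' b ∪
    (fun x => (x, (2 : Fin 3))) '' c

theorem fst_lift3 (a b c : Set (Eu d)) : Prod.fst '' lift3 a b c = a ∪ b ∪ c := by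
  ext x
  unfold lift3
  constructor
  · rintro ⟨⟨y, i⟩, ((⟨z, hz, h⟩ | ⟨z, hz, h⟩) | ⟨z, hz, h⟩), rfl⟩
    · simp only [Prod.mk.injEq] at h; exact Or.inl (Or.inl (h.1 ▸ hz))
    · simp only [Prod.mk.injEq] at h; exact Or.inl (Or.inr (h.1 ▸ hz))
    · simp only [Prod.mk.injEq] at h; exact Or.inr (h.1 ▸ hz)
  · rintro ((h | h) | h)
    · exact ⟨(x, 0), Or.inl (Or.inl ⟨x, h, rfl⟩), rfl⟩
    · exact ⟨(x, 1), Or.inl (Or.inr ⟨x, h, rfl⟩), rfl⟩
    · exact ⟨(x, 2), Or.inr ⟨x, h, rfl⟩, rfl⟩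

theorem mem_lift3 (a b c : Set (Eu d)) (x : Eu d) (i : Fin 3) :
    (x, i) ∈ lift3 a b c ↔ (i = 0 ∧ x ∈ a) ∨ (i = 1 ∧ x ∈ b) ∨ (i = 2 ∧ x ∈ c) := by
  unfold lift3
  constructor
  · rintro ((⟨z, hz, h⟩ | ⟨z, hz, h⟩) | ⟨z, hz, h⟩)
    · simp only [Prod.mk.injEq] at h; exact Or.inl ⟨h.2.symm, h.1 ▸ hz⟩
    · simp only [Prod.mk.injEq] at h; exact Or.inr (Or.inl ⟨h.2.symm, h.1 ▸ hz⟩)
    · simp only [Prod.mk.injEq] at h; exact Or.inr (Or.inr ⟨h.2.symm, h.1 ▸ hz⟩)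
  · rintro (⟨rfl, h⟩ | ⟨rfl, h⟩ | ⟨rfl, h⟩)
    · exact Or.inl (Or.inl ⟨x, h, rfl⟩)
    · exact Or.inl (Or.inr ⟨x, h, rfl⟩)
    · exact Or.inr ⟨x, h, rfl⟩

theorem slc0 (W : Set (Eu d) → Set (Eu d)) (P : Set (Eu d × Fin 3)) (a b c : Set (Eu d)) :
    slc 0 (lift3 a b c \ WW W P) = a \ W (Prod.fst '' P) := by
  ext x
  unfold slc
  simp only [mem_ofPred_eq, mem_sdiff, mem_lift3, WW]
  simp

theorem slc1 (W : Set (Eu d) → Set (Eu d)) (P : Set (Eu d × Fin 3)) (a b c : Set (Eu d)) :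
    slc 1 (lift3 a b c \ WW W P) = b \ W (Prod.fst '' P) := by
  ext x
  unfold slc
  simp only [mem_ofPred_eq, mem_sdiff, mem_lift3, WW]
  simp

theorem fst_inter (W : Set (Eu d) → Set (Eu d)) (P : Set (Eu d × Fin 3)) :
    Prod.fst '' (P ∩ WW W P) = (Prod.fst '' P) ∩ W (Prod.fst '' P) := by
  ext x
  constructor
  · rintro ⟨⟨y, i⟩, ⟨h1, h2⟩, rfl⟩
    exact ⟨⟨(y, i), h1, rfl⟩, h2⟩
  · rintro ⟨⟨⟨y, i⟩, h1, rfl⟩, h2⟩
    exact ⟨(y, i), ⟨h1, h2⟩, rfl⟩

/-- `slc` is realised by a measurable map -/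
theorem slc_map (hr : MRestrStatement) (hops : MOpsStatement) (i : Fin 3) :
    ∃ m : Cfg (Eu d × Fin 3) → Cfg (Eu d), Measurable m ∧ ∀ ω, pt (m ω) = slc i (pt ω) := by
  obtain ⟨r, hrm, hr'⟩ := hr Unit (Eu d × Fin 3) {q | q.2.2 = i}
    ((measurable_snd.comp measurable_snd) (measurableSet_singleton i))
  obtain ⟨m, hm, hm'⟩ := hops.2.2 (Eu d × Fin 3) (Eu d) Prod.fst measurable_fst
  refine ⟨fun ω => m (r ((), ω)), hm.comp (hrm.comp (measurable_const.prodMk measurable_id)), ?_⟩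
  intro ω
  rw [hm', hr']
  ext x
  unfold slc
  constructor
  · rintro ⟨⟨y, j⟩, ⟨h1, h2⟩, rfl⟩
    have h3 : j = i := h2
    subst h3
    exact h1
  · intro h
    exact ⟨(x, i), ⟨h, rfl⟩, rfl⟩

theorem smp3 (hsmp : SmpStatement) (hsup : SuperStatement) (himg : ImgStatement)
    (hops : MOpsStatement) (hr : MRestrStatement) (hprob : ProbStatement) : Smp3Statement := by
  intro d ρn ρg ρs _ _ _ _ _ _ W F hW hF
  set φ0 : Eu d → Eu d × Fin 3 := fun x => (x, 0) with hφ0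
  set φ1 : Eu d → Eu d × Fin 3 := fun x => (x, 1) with hφ1
  set φ2 : Eu d → Eu d × Fin 3 := fun x => (x, 2) with hφ2
  have m0 : Measurable φ0 := measurable_id.prodMk measurable_const
  have m1 : Measurable φ1 := measurable_id.prodMk measurable_const
  have m2 : Measurable φ2 := measurable_id.prodMk measurable_const
  set ρ := ρn.map φ0 + ρg.map φ1 + ρs.map φ2 with hρ
  have hnull : NullSingletonClass ρ := by
    constructor
    rintro ⟨x, i⟩
    rw [hρ, Measure.add_apply, Measure.add_apply,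
      Measure.map_apply m0 (measurableSet_singleton _),
      Measure.map_apply m1 (measurableSet_singleton _),
      Measure.map_apply m2 (measurableSet_singleton _)]
    have key : ∀ (j : Fin 3) (μ : Measure (Eu d)) [NullSingletonClass μ],
        μ ((fun x => (x, j)) ⁻¹' {(x, i)}) = 0 := by
      intro j μ _
      have h1 : ((fun x => (x, j)) ⁻¹' {(x, i)} : Set (Eu d)) ⊆ {x} := by
        intro y hy
        simp only [mem_preimage, mem_singleton_iff, Prod.mk.injEq] at hy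
        exact hy.1
      exact measure_mono_null h1 (measure_singleton x)
    rw [hφ0, hφ1, hφ2, key, key, key]
    simp
  have hWW := stopWW hops hW
  obtain ⟨s0, hs0, hs0'⟩ := slc_map (d := d) hr hops 0
  obtain ⟨s1, hs1, hs1'⟩ := slc_map (d := d) hr hops 1
  obtain ⟨mf, hmf, hmf'⟩ := hops.2.2 (Eu d × Fin 3) (Eu d) Prod.fst measurable_fst
  set f : Set (Eu d × Fin 3) → Set (Eu d × Fin 3) → ℝ≥0∞ :=
    fun P Q => F (Prod.fst '' P) (slc 0 Q) (slc 1 Q) with hf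
  have hfm : Measurable fun q : Cfg (Eu d × Fin 3) × Cfg (Eu d × Fin 3) =>
      f (pt q.1) (pt q.2) := by
    have h1 : (fun q : Cfg (Eu d × Fin 3) × Cfg (Eu d × Fin 3) => f (pt q.1) (pt q.2)) =
        (fun q : Cfg (Eu d) × Cfg (Eu d) × Cfg (Eu d) => F (pt q.1) (pt q.2.1) (pt q.2.2)) ∘
          fun q : Cfg (Eu d × Fin 3) × Cfg (Eu d × Fin 3) => (mf q.1, s0 q.2, s1 q.2) := by
      funext q
      simp only [Function.comp_apply, hmf', hs0', hs1', hf]
    rw [h1]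
    exact hF.comp ((hmf.comp measurable_fst).prodMk ((hs0.comp measurable_snd).prodMk
      (hs1.comp measurable_snd)))
  -- restriction maps
  obtain ⟨rin, hrin, hrin'⟩ := hr (Cfg (Eu d × Fin 3)) (Eu d × Fin 3)
    {q | q.2 ∈ WW W (pt q.1)} (hWW.meas.preimage (measurable_snd.prodMk measurable_fst))
  obtain ⟨rout, hrout, hrout'⟩ := hr (Cfg (Eu d × Fin 3)) (Eu d × Fin 3)
    {q | q.2 ∉ WW W (pt q.1)} (hWW.meas.preimage (measurable_snd.prodMk measurable_fst)).compl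
  have ein : ∀ ω : Cfg (Eu d × Fin 3), pt (rin (ω, ω)) = pt ω ∩ WW W (pt ω) := by
    intro ω; rw [hrin']; rfl
  have eout : ∀ ω ω' : Cfg (Eu d × Fin 3), pt (rout (ω, ω')) = pt ω' \ WW W (pt ω) := by
    intro ω ω'; rw [hrout']; rfl
  have key := hsmp (Eu d × Fin 3) ρ (WW W) f hWW hfm
  -- left side
  have hL : ∫⁻ ω, f (pt ω ∩ WW W (pt ω)) (pt ω \ WW W (pt ω)) ∂PL ρ =
      ∫⁻ a, ∫⁻ b, ∫⁻ c, F ((pt a ∪ pt b ∪ pt c) ∩ W (pt a ∪ pt b ∪ pt c))
        (pt a \ W (pt a ∪ pt b ∪ pt c)) (pt b \ W (pt a ∪ pt b ∪ pt c))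
        ∂PL ρs ∂PL ρg ∂PL ρn := by
    have hcm : CM fun P : Set (Eu d × Fin 3) => f (P ∩ WW W P) (P \ WW W P) := by
      unfold CM
      have h1 : (fun ω : Cfg (Eu d × Fin 3) => f (pt ω ∩ WW W (pt ω)) (pt ω \ WW W (pt ω))) =
          (fun q : Cfg (Eu d × Fin 3) × Cfg (Eu d × Fin 3) => f (pt q.1) (pt q.2)) ∘
            fun ω => (rin (ω, ω), rout (ω, ω)) := by
        funext ω
        simp only [Function.comp_apply, ein, eout]
      rw [h1]
      exact hfm.comp ((hrin.comp (measurable_id.prodMk measurable_id)).prodMk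
        (hrout.comp (measurable_id.prodMk measurable_id)))
    rw [hρ, typ3 hsup himg hops hprob hcm m0 m1 m2 ρn ρg ρs]
    congr 1; funext a; congr 1; funext b; congr 1; funext c
    change F (Prod.fst '' (lift3 (pt a) (pt b) (pt c) ∩ WW W (lift3 (pt a) (pt b) (pt c))))
      (slc 0 (lift3 (pt a) (pt b) (pt c) \ WW W (lift3 (pt a) (pt b) (pt c))))
      (slc 1 (lift3 (pt a) (pt b) (pt c) \ WW W (lift3 (pt a) (pt b) (pt c)))) = _
    rw [fst_inter, slc0, slc1, fst_lift3]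
  -- right side, inner integral
  have hI : ∀ ω : Cfg (Eu d × Fin 3),
      ∫⁻ ω', f (pt ω ∩ WW W (pt ω)) (pt ω' \ WW W (pt ω)) ∂PL ρ =
      ∫⁻ a', ∫⁻ b', F (Prod.fst '' (pt ω ∩ WW W (pt ω))) (pt a' \ W (Prod.fst '' pt ω))
        (pt b' \ W (Prod.fst '' pt ω)) ∂PL ρg ∂PL ρn := by
    intro ω
    have hcm : CM fun Q : Set (Eu d × Fin 3) => f (pt ω ∩ WW W (pt ω)) (Q \ WW W (pt ω)) := by
      unfold CM
      have h1 : (fun ω' : Cfg (Eu d × Fin 3) => f (pt ω ∩ WW W (pt ω)) (pt ω' \ WW W (pt ω))) =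
          (fun q : Cfg (Eu d × Fin 3) × Cfg (Eu d × Fin 3) => f (pt q.1) (pt q.2)) ∘
            fun ω' => (rin (ω, ω), rout (ω, ω')) := by
        funext ω'
        simp only [Function.comp_apply, ein, eout]
      rw [h1]
      exact hfm.comp (measurable_const.prodMk
        (hrout.comp (measurable_const.prodMk measurable_id)))
    rw [hρ, typ3 hsup himg hops hprob hcm m0 m1 m2 ρn ρg ρs]
    congr 1; funext a'; congr 1; funext b'
    have hps : IsProbabilityMeasure (PL ρs) := (hprob _ _).1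
    have h2 : ∀ c' : Cfg (Eu d), f (pt ω ∩ WW W (pt ω))
        ((φ0 '' pt a' ∪ φ1 '' pt b' ∪ φ2 '' pt c') \ WW W (pt ω)) =
        F (Prod.fst '' (pt ω ∩ WW W (pt ω))) (pt a' \ W (Prod.fst '' pt ω))
        (pt b' \ W (Prod.fst '' pt ω)) := by
      intro c'
      change F (Prod.fst '' (pt ω ∩ WW W (pt ω)))
        (slc 0 (lift3 (pt a') (pt b') (pt c') \ WW W (pt ω)))
        (slc 1 (lift3 (pt a') (pt b') (pt c') \ WW W (pt ω))) = _
      rw [slc0, slc1]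
    simp only [h2]
    rw [lintegral_const, measure_univ, mul_one]
  have hR : ∫⁻ ω, ∫⁻ ω', f (pt ω ∩ WW W (pt ω)) (pt ω' \ WW W (pt ω)) ∂PL ρ ∂PL ρ =
      ∫⁻ a, ∫⁻ b, ∫⁻ c, (∫⁻ a', ∫⁻ b', F ((pt a ∪ pt b ∪ pt c) ∩ W (pt a ∪ pt b ∪ pt c))
        (pt a' \ W (pt a ∪ pt b ∪ pt c)) (pt b' \ W (pt a ∪ pt b ∪ pt c)) ∂PL ρg ∂PL ρn)
        ∂PL ρs ∂PL ρg ∂PL ρn := by
    simp only [hI]
    have hcm : CM fun P : Set (Eu d × Fin 3) =>
        ∫⁻ a', ∫⁻ b', F (Prod.fst '' (P ∩ WW W P)) (pt a' \ W (Prod.fst '' P))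
        (pt b' \ W (Prod.fst '' P)) ∂PL ρg ∂PL ρn := by
      unfold CM
      obtain ⟨ro, hro, hro'⟩ := hr (Cfg (Eu d × Fin 3)) (Eu d)
        {q | q.2 ∉ W (Prod.fst '' (pt q.1))} (by
          have h1 : {q : Cfg (Eu d × Fin 3) × Eu d | q.2 ∉ W (Prod.fst '' (pt q.1))} =
              ((fun q : Cfg (Eu d × Fin 3) × Eu d => (q.2, mf q.1)) ⁻¹'
                {q : Eu d × Cfg (Eu d) | q.1 ∈ W (pt q.2)})ᶜ := by
            ext q
            simp only [mem_ofPred_eq, mem_compl_iff, mem_preimage, hmf']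
          rw [h1]
          exact (hW.meas.preimage (measurable_snd.prodMk (hmf.comp measurable_fst))).compl)
      have ero : ∀ (ω : Cfg (Eu d × Fin 3)) (a : Cfg (Eu d)),
          pt (ro (ω, a)) = pt a \ W (Prod.fst '' pt ω) := by
        intro ω a; rw [hro']; rfl
      have hpg : IsProbabilityMeasure (PL ρg) := (hprob _ _).1
      have hpn : IsProbabilityMeasure (PL ρn) := (hprob _ _).1
      have h2 : Measurable fun q : (Cfg (Eu d × Fin 3) × Cfg (Eu d)) × Cfg (Eu d) =>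
          F (Prod.fst '' (pt q.1.1 ∩ WW W (pt q.1.1))) (pt q.1.2 \ W (Prod.fst '' pt q.1.1))
            (pt q.2 \ W (Prod.fst '' pt q.1.1)) := by
        have h3 : (fun q : (Cfg (Eu d × Fin 3) × Cfg (Eu d)) × Cfg (Eu d) =>
          F (Prod.fst '' (pt q.1.1 ∩ WW W (pt q.1.1))) (pt q.1.2 \ W (Prod.fst '' pt q.1.1))
            (pt q.2 \ W (Prod.fst '' pt q.1.1))) =
          (fun q : Cfg (Eu d) × Cfg (Eu d) × Cfg (Eu d) => F (pt q.1) (pt q.2.1) (pt q.2.2)) ∘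
            fun q : (Cfg (Eu d × Fin 3) × Cfg (Eu d)) × Cfg (Eu d) =>
              (mf (rin (q.1.1, q.1.1)), ro (q.1.1, q.1.2), ro (q.1.1, q.2)) := by
          funext q
          simp only [Function.comp_apply, hmf', ein, ero]
        rw [h3]
        have e1 : Measurable fun q : (Cfg (Eu d × Fin 3) × Cfg (Eu d)) × Cfg (Eu d) => q.1.1 :=
          measurable_fst.comp measurable_fst
        have e2 : Measurable fun q : (Cfg (Eu d × Fin 3) × Cfg (Eu d)) × Cfg (Eu d) => q.1.2 :=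
          measurable_snd.comp measurable_fst
        exact hF.comp ((hmf.comp (hrin.comp (e1.prodMk e1))).prodMk
          ((hro.comp (e1.prodMk e2)).prodMk (hro.comp (e1.prodMk measurable_snd))))
      exact (h2.lintegral_prod_right').lintegral_prod_right'
    rw [hρ, typ3 hsup himg hops hprob hcm m0 m1 m2 ρn ρg ρs]
    congr 1; funext a; congr 1; funext b; congr 1; funext c
    congr 1; funext a'; congr 1; funext b'
    change F (Prod.fst '' (lift3 (pt a) (pt b) (pt c) ∩ WW W (lift3 (pt a) (pt b) (pt c))))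
      (pt a' \ W (Prod.fst '' lift3 (pt a) (pt b) (pt c)))
      (pt b' \ W (Prod.fst '' lift3 (pt a) (pt b) (pt c))) = _
    rw [fst_inter, fst_lift3]
  rw [← hL, ← hR]
  exact key

end Smp3

end Pool.Agent.Lib.MP_5349a4_pr.H12
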